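import Pool.Agent.Helper5.Kato.Sym

/-!
# The gap between two ideals of the Iwasawa algebra which satisfy functional equations

Let `p` be an odd prime and let `f` divide `L ≠ 0` in the Iwasawa algebra `Λ = ℤ_p⟦X⟧`, as the
characteristic power series of Kato's main conjecture do. Assume that the ideal of `L / f` is
invariant under the involution `1 + X ↦ (1 + X)⁻¹` and that `L` and `f` vanish at `X = 0` to orders
of the same parity. Then the ideals of `f` and `L` are equal as soon as their values at one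
nontrivial character of `p`-power order (twisted by any `c ≡ 1 mod p`) differ by less than `p ^ 2`,
or the orders of their quotients at level `n` differ by a factor less than `p ^ (2 n + 1)`; and both
bounds are the best possible.
-/

set_option autoImplicit false

namespace Pool.Agent.Results.MP_1186d4_nt.GapWithFunctionalEquation

open PowerSeries

/-- the Iwasawa algebra `ℤ_p⟦X⟧`, where `1 + X` is a topological generator of the group -/
abbrev Iwasawa (p : ℕ) [Fact p.Prime] : Type := PowerSeries ℤ_[p]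

/-- the element `(1 + X) ^ (p ^ n) - c ^ (p ^ n)` of level `n`, twisted by `c` -/
noncomputable def omega (p : ℕ) [Fact p.Prime] (c : ℤ_[p]) (n : ℕ) : Iwasawa p :=
  (1 + X) ^ (p ^ n) - C c ^ (p ^ n)

/-- the quotient of `omega c (n + 1)` by `omega c n`; for `c = 1` its zeros are the `ζ - 1`, where
`ζ` is a root of unity of order `p ^ (n + 1)` -/
noncomputable def xi (p : ℕ) [Fact p.Prime] (c : ℤ_[p]) (n : ℕ) : Iwasawa p :=
  ∑ i ∈ Finset.range p, ((1 + X) ^ (p ^ n)) ^ i * (C c ^ (p ^ n)) ^ (p - 1 - i)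

/-- the order of `Λ / (g, w)` -/
noncomputable def card {p : ℕ} [Fact p.Prime] (g w : Iwasawa p) : ℕ :=
  Nat.card (Iwasawa p ⧸ Ideal.span {g, w})

/-- the power series `(1 + X)⁻¹ - 1 = -X + X ^ 2 - ⋯` -/
noncomputable def invX (p : ℕ) [Fact p.Prime] : Iwasawa p :=
  PowerSeries.mk fun k => if k = 0 then 0 else (-1) ^ k

/-- the involution `g (X) ↦ g ((1 + X)⁻¹ - 1)` -/
noncomputable def iota {p : ℕ} [Fact p.Prime] (g : Iwasawa p) : Iwasawa p := g.subst (invX p)

/-- `L / f` generates an ideal which is invariant under the involution, and `L` and `f` vanish at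
`X = 0` to orders of the same parity -/
def Symmetric {p : ℕ} [Fact p.Prime] (f L : Iwasawa p) : Prop :=
  Ideal.span {iota L * f} = Ideal.span {L * iota f} ∧ Even (L.order.toNat + f.order.toNat)

open Pool.Agent.Helper5.Kato Pool.Agent.X308.Iw in
theorem iota_ne_zero {p : ℕ} [Fact p.Prime] {f : Iwasawa p} (hf : f ≠ 0) :
    Pool.Agent.Helper5.Kato.iota f ≠ 0 := by
  have h1 : X ^ f.order.toNat * divXPowOrder f = f := X_pow_order_mul_divXPowOrder
  have h2 : constantCoeff (divXPowOrder f) ≠ 0 := fun h0 =>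
    hf (constantCoeff_divXPowOrder_eq_zero_iff.1 h0)
  rw [← h1, iota_mul, iota_pow, iota_X]
  refine mul_ne_zero (pow_ne_zero _ ?_) ?_
  · rw [invX_eq]
    refine mul_ne_zero X_ne_zero (neg_ne_zero.2 ?_)
    exact unit_one_add_invX.ne_zero
  · intro h
    apply h2
    rw [← constantCoeff_iota, h, map_zero]

open Pool.Agent.Helper5.Kato in
/-- the quotient of two symmetric elements -/
theorem quot_mem {p : ℕ} [Fact p.Prime] (hp2 : p ≠ 2) {f u : Iwasawa p} (hL : f * u ≠ 0)
    (hs : Symmetric f (f * u)) (hu : ¬ IsUnit u) : u ∈ J2 p := by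
  obtain ⟨h1, h2⟩ := hs
  have hf0 : f ≠ 0 := left_ne_zero_of_mul hL
  have hu0 : u ≠ 0 := right_ne_zero_of_mul hL
  have h3 : Pool.Agent.Helper5.Kato.iota (f * u) * f ∈
      Ideal.span {f * u * Pool.Agent.Helper5.Kato.iota f} := by
    have h4 : Ideal.span {Pool.Agent.Helper5.Kato.iota (f * u) * f} =
        Ideal.span {f * u * Pool.Agent.Helper5.Kato.iota f} := h1
    rw [← h4]
    exact Ideal.mem_span_singleton_self _
  rw [Ideal.mem_span_singleton] at h3
  obtain ⟨ε, hε⟩ := h3
  rw [iota_mul] at hε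
  have h4 : Pool.Agent.Helper5.Kato.iota u = ε * u := by
    refine mul_left_cancel₀ (mul_ne_zero hf0 (iota_ne_zero hf0)) ?_
    linear_combination hε
  have h5 : Even u.order.toNat := by
    have h6 : (f * u).order.toNat = f.order.toNat + u.order.toNat := by
      rw [order_mul, ENat.toNat_add]
      · exact fun h => hf0 (order_eq_top.1 h)
      · exact fun h => hu0 (order_eq_top.1 h)
    rw [h6] at h2
    have h7 : f.order.toNat + u.order.toNat + f.order.toNat =
        2 * f.order.toNat + u.order.toNat := by ring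
    rw [h7] at h2
    exact (Nat.even_add.1 h2).1 (even_two_mul _)
  exact sym_mem hp2 hu0 hu h5 h4

open Pool.Agent.Helper5.Kato Pool.Agent.X308.Iw in
/-- the criterion, given a lower bound for the quotients -/
theorem criterion {p : ℕ} [Fact p.Prime] {f L w : Iwasawa p} {N : ℕ} (hfL : f ∣ L)
    (hw : ¬ (p : Iwasawa p) ∣ w) (hN : 1 < N) (hfin : Finite (Iwasawa p ⧸ Ideal.span {L, w}))
    (h : ∀ u, L = f * u → ¬ IsUnit u → Finite (Iwasawa p ⧸ Ideal.span {u, w}) → N ≤ card u w) :
    Ideal.span {f} = Ideal.span {L} ↔ card L w < N * card f w := by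
  constructor
  · intro h
    have h1 : Ideal.span {f, w} = Ideal.span {L, w} := by
      rw [Ideal.span_insert, Ideal.span_insert L, h]
    unfold card
    rw [h1]
    have h2 : 0 < Nat.card (Iwasawa p ⧸ Ideal.span {L, w}) := Nat.card_pos
    nlinarith
  · intro hlt
    obtain ⟨u, rfl⟩ := hfL
    by_contra hne
    have hu : ¬ IsUnit u := by
      intro hu
      exact hne (Ideal.span_singleton_eq_span_singleton.2 ⟨hu.unit, rfl⟩)
    have hfinf : Finite (Iwasawa p ⧸ Ideal.span {f, w}) :=
      finite_of_le (span_pair_le (dvd_mul_right _ _) dvd_rfl) hfin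
    have hfinu : Finite (Iwasawa p ⧸ Ideal.span {u, w}) :=
      finite_of_le (span_pair_le (dvd_mul_left _ _) dvd_rfl) hfin
    have h1 : card (f * u) w = card u w * card f w :=
      card_mul (f := f) (u := u) (w := w) fun x => dvd_of_finite hw hfinf
    rw [h1] at hlt
    have h2 := h u rfl hu hfinu
    exact absurd hlt (not_lt.2 (Nat.mul_le_mul_right _ h2))

/-- Let `p` be an odd prime and let `f` divide `L ≠ 0` in the Iwasawa algebra, where `L / f` is
symmetric and of even order at `X = 0`. For `n ≥ 0` and `c ≡ 1 mod p`, the ideals of `f` and `L` are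
equal if and only if `|Λ / (L, w)| < N |Λ / (f, w)|`, where `w = omega c n`, `N = p ^ (2 n + 1)`, or
`w = xi c n`, `N = p ^ 2`, provided that `Λ / (L, w)` is finite. The numbers `N` are the largest
possible: there is a nonunit `g`, such that `f = 1` and `L = g` satisfy the assumptions, with
`|Λ / (g, w)| = N` in all cases. -/
theorem result (p : ℕ) [Fact p.Prime] (hp2 : p ≠ 2) :
    (∀ f L : Iwasawa p, f ∣ L → L ≠ 0 → Symmetric f L →
      ∀ (c : ℤ_[p]) (n : ℕ), (p : ℤ_[p]) ∣ c - 1 →
        (Finite (Iwasawa p ⧸ Ideal.span {L, omega p c n}) →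
          (Ideal.span {f} = Ideal.span {L} ↔
            card L (omega p c n) < p ^ (2 * n + 1) * card f (omega p c n))) ∧
        (Finite (Iwasawa p ⧸ Ideal.span {L, xi p c n}) →
          (Ideal.span {f} = Ideal.span {L} ↔
            card L (xi p c n) < p ^ 2 * card f (xi p c n)))) ∧
    ∃ g : Iwasawa p, ¬ IsUnit g ∧ g ≠ 0 ∧ Symmetric 1 g ∧
      ∀ (c : ℤ_[p]) (n : ℕ), (p : ℤ_[p]) ∣ c - 1 →
        card g (omega p c n) = p ^ (2 * n + 1) ∧ card g (xi p c n) = p ^ 2 := by
  have hp1 : 1 < p := (Fact.out : p.Prime).one_lt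
  refine ⟨?_, Pool.Agent.Helper5.Kato.opt p, ?_, ?_, ⟨?_, ?_⟩, ?_⟩
  · intro f L hfL hL hs c n hc
    refine ⟨fun hfin => ?_, fun hfin => ?_⟩
    · refine criterion hfL (Pool.Agent.X308.Iw.not_dvd_omega hc n)
        (Nat.one_lt_pow (by omega) hp1) hfin ?_
      rintro u rfl hu hfinu
      exact Pool.Agent.Helper5.Kato.pow_le hp2 (quot_mem hp2 hL hs hu) hc n hfinu
    · refine criterion hfL (Pool.Agent.Helper5.Kato.not_dvd_xi hc n)
        (Nat.one_lt_pow (by omega) hp1) hfin ?_
      rintro u rfl hu hfinu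
      have := hfinu
      exact Pool.Agent.Helper5.Kato.sq_le (quot_mem hp2 hL hs hu)
        (Pool.Agent.Helper5.Kato.xi_mem hp2 hc n)
  · intro h
    rw [isUnit_iff_constantCoeff, Pool.Agent.Helper5.Kato.constantCoeff_opt, IsUnit.neg_iff] at h
    exact PadicInt.prime_p.not_isUnit h
  · intro h
    have h1 := Pool.Agent.Helper5.Kato.constantCoeff_opt (p := p)
    rw [h, map_zero, eq_comm, neg_eq_zero] at h1
    exact PadicInt.prime_p.ne_zero h1
  · have h1 : iota (1 : Iwasawa p) = 1 := by
      have e1 : (1 : Iwasawa p) = C (1 : ℤ_[p]) := (map_one C).symm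
      rw [e1]
      exact Pool.Agent.Helper5.Kato.iota_C 1
    rw [h1, mul_one, mul_one]
    exact Pool.Agent.Helper5.Kato.span_iota_opt
  · rw [Pool.Agent.Helper5.Kato.order_opt]
    simp
  · intro c n hc
    exact ⟨Pool.Agent.Helper5.Kato.card_opt_omega hp2 hc n,
      Pool.Agent.Helper5.Kato.card_opt_xi hp2 hc n⟩

end Pool.Agent.Results.MP_1186d4_nt.GapWithFunctionalEquation
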